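import Pool.Agent.W425.MM.Defs
import Pool.Agent.W425.SV.Kill

/-! # The functional kills `k * p(∑ X_j)`, version with `RelW` (adapted from `W425.SV.Kill`) -/

set_option autoImplicit false

namespace Pool.Agent.W318.MM

open MvPolynomial Pool.Agent.H628R4.TZ Pool.Agent.H628R4.TP Pool.Agent.W425.SM Pool.Agent.W425.SL
  Pool.Agent.W425.SG Pool.Agent.W425.SV Pool.Agent.W425.MM MeasureTheory Set Filter Topology

variable {r N : ℕ}

/-- the two alternatives, with constants -/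
lemma kilW_const (v : Fin r → Fin N → ℕ) (θ : Fin r → ℝ) (loc : Prop) (c : Fin r → ℤ)
    (h : KilW v θ loc c) : ∃ K : ℝ, 0 ≤ K ∧ ∀ (ε : ℝ), 0 < ε → ∀ (κ : Fin r → ℕ) (M : ℕ),
      (∀ j, κ j ≤ M) → ∀ (s T δ ϑ : ℝ), 0 < ϑ → ε * K < ϑ → (loc → (ε + ϑ) * K < -δ) →
      ∀ (S : Finset (Fin N)) (q : MvPolynomial (Fin r) ℂ),
      HH v ε κ s (yTH v θ T δ ϑ) S (q * ∏ j, (if c j < 0 then X j * dm M j else 1)) = 0 := by
  rcases h with ⟨l, hl, h1, h2, h3⟩ | h
  · refine ⟨(∑ j, ((c j : ℝ) + l j) * θ j)⁻¹ * ∑ j, |(c j : ℝ)|, by positivity,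
      fun ε hε κ M hκ s T δ ϑ hϑ hεϑ _ S q => ?_⟩
    refine HH_zero_of' v θ ε hε κ M hκ s T δ ϑ c l hl S q fun x hx0 hxS => ?_
    have h9 := mul_lt_mul_of_pos_left hεϑ h3
    have h10 : (∑ j, ((c j : ℝ) + l j) * θ j) * (ε * ((∑ j, ((c j : ℝ) + l j) * θ j)⁻¹ *
        ∑ j, |(c j : ℝ)|)) = ε * ∑ j, |(c j : ℝ)| := by
      have := h3.ne'
      field_simp
    rw [h10] at h9
    have h11 : ∑ i : Fin N, (∑ j, ((c j : ℝ) + l j) * v j i) * x i.succ = 0 :=
      Finset.sum_eq_zero fun i _ => by rw [h2 i, zero_mul]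
    have h12 : ∑ i : Fin N, (∑ j, ((c j : ℝ) + l j) * (v j i : ℝ)) = 0 :=
      Finset.sum_eq_zero fun i _ => h2 i
    rw [h11, h12, h1]
    linarith
  · exact kil0_const v θ loc c (Or.inr h)

/-- **The functional kills `k * p(∑ X_j)`, version with `RelW`.** -/
theorem killsW (v : Fin r → Fin N → ℕ) (θ : Fin r → ℝ) (loc : Prop) (p : Polynomial ℂ)
    (hR : RelW v θ loc p)
    (k : MvPolynomial (Fin r) ℂ)
    (hk : ∀ (κ : Fin r → ℕ) (i : Fin N), ∑ j, κ j * v j i = 1 →
      k ∈ Ideal.span {p : MvPolynomial (Fin r) ℂ | ∃ j, 0 < v j i ∧ p = X j + C ((κ j : ℕ) : ℂ)}) :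
    ∃ K0 s0 : ℝ, 0 ≤ K0 ∧ 0 < s0 ∧ ∀ ε > 0, ∀ ϑ > 0, ε * K0 < ϑ →
      ∀ δ : ℝ, (loc → (ε + ϑ) * K0 < -δ) → ∀ T : ℝ,
      (ε + |δ| + ϑ) * K0 < T → ∀ s : ℝ, s0 ≤ s →
      Φ (ph ε) ∅ (lm (N := N) s) (av v) (yTH v θ T δ ϑ)
        (k * Polynomial.aeval (∑ j, X j : MvPolynomial (Fin r) ℂ) p) = 0 := by
  classical
  obtain ⟨M, n, n0, c, B, q, c0, q0, hc, hc0, hrel⟩ := hR
  obtain ⟨cf, hcf⟩ := DD_sum (r := r) M
  choose l hl hl1 hl2 using hc
  choose K0 hK0 hkill0 using fun k => kilW_const v θ loc (c0 k) (hc0 k)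
  set KK := Fintype.piFinset (fun _ : Fin r => Finset.range (M+1)) with hKK
  set K1 : ℝ := ∑ k, (∑ j, |(c k j : ℝ)| + ∑ i, |∑ j, ((c k j : ℝ) + l k j) * (v j i : ℝ)| +
      |∑ j, ((c k j : ℝ) + l k j) * θ j|) with hK1
  set K2 : ℝ := ∑ k, K0 k with hK2
  have hK1' : 0 ≤ K1 := by positivity
  have hK2' : 0 ≤ K2 := Finset.sum_nonneg fun k _ => hK0 k
  refine ⟨K1 + K2, (∑ κ ∈ KK, (Lam v κ : ℝ)) + 1, by positivity, by positivity,
    fun ε hε ϑ hϑ hεϑ δ hδ T hT s hs => ?_⟩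
  have hT1 : (ε + |δ| + ϑ) * K1 < T := by
    refine lt_of_le_of_lt (mul_le_mul_of_nonneg_left ?_ (by positivity)) hT
    linarith
  have hδ1 : loc → (ε + ϑ) * K2 < -δ := by
    intro hl
    refine lt_of_le_of_lt (mul_le_mul_of_nonneg_left ?_ (by positivity)) (hδ hl)
    linarith
  have hεϑ1 : ε * K2 < ϑ := by
    refine lt_of_le_of_lt (mul_le_mul_of_nonneg_left ?_ hε.le) hεϑ
    linarith
  have hzero : ∀ κ ∈ KK, HH v ε κ s (yTH v θ T δ ϑ) ∅
      ((k * Polynomial.aeval (∑ j, X j : MvPolynomial (Fin r) ℂ) p) * ∏ j, dm M j) = 0 ∧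
      Gd v ε κ ∅ ((k * Polynomial.aeval (∑ j, X j : MvPolynomial (Fin r) ℂ) p) * ∏ j, dm M j) ∧
      (Lam v κ : ℝ) + 1 ≤ s := by
    intro κ hκ
    have hκM : ∀ j, κ j ≤ M := fun j => by
      have := (Fintype.mem_piFinset.1 hκ) j
      rw [Finset.mem_range] at this
      omega
    have hs' : (Lam v κ : ℝ) + 1 ≤ s := by
      refine le_trans ?_ hs
      have := Finset.single_le_sum (f := fun κ : Fin r → ℕ => (Lam v κ : ℝ))
        (fun _ _ => Nat.cast_nonneg _) hκ
      linarith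
    have hGd : Gd v ε κ ∅
        ((k * Polynomial.aeval (∑ j, X j : MvPolynomial (Fin r) ℂ) p) * ∏ j, dm M j) := by
      intro i _ hi
      have h1 : ∃ j, 0 < κ j * v j i := by
        by_contra hcon
        push Not at hcon
        have : ell v κ i = 0 := Finset.sum_eq_zero fun j _ => Nat.le_zero.1 (hcon j)
        omega
      obtain ⟨j, hj⟩ := h1
      have hj1 : 0 < κ j := Nat.pos_of_mul_pos_right hj
      have hj2 : 0 < v j i := Nat.pos_of_mul_pos_left hj
      refine (goodDir_lin hε (κ := κ) j hj2).of_dvd ?_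
      refine Dvd.dvd.mul_left ?_ _
      exact (dm_dvd M j (κ j) hj1 (hκM j)).trans (Finset.dvd_prod_of_mem _ (Finset.mem_univ j))
    refine ⟨?_, hGd, hs'⟩
    set L : List (Fin N) := (Finset.univ.filter fun i => 2 ≤ ell v κ i).toList with hL
    have hLnd : L.Nodup := Finset.nodup_toList _
    have hLell : ∀ i ∈ L, ell v κ i ≠ 1 := fun i hi => by
      have : 2 ≤ ell v κ i := by simpa [hL] using hi
      omega
    have hkgood : ∀ i, i ∉ L → 0 < ell v κ i → GoodDir v ε κ i k := by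
      intro i hi h
      have h1 : ell v κ i = 1 := by
        have : ¬ 2 ≤ ell v κ i := fun h' => hi (by simp [hL, h'])
        omega
      have h2 := hk κ i h1
      rw [← Submodule.mem_toAddSubmonoid, ] at h2
      refine Submodule.span_induction (p := fun x _ => GoodDir v ε κ i x) ?_ ?_ ?_ ?_
        (by simpa [Ideal.span] using h2)
      · rintro x ⟨j, hj, rfl⟩
        exact goodDir_lin hε j hj
      · exact GoodDir.zero
      · intro x y _ _ hx hy
        exact hx.add hy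
      · intro a x _ hx
        exact hx.mul_left a
    rw [← FF_eq v ε hε κ s hs' _ L ∅ _ (by simp) hLnd hLell hGd]
    set F : (Fin n) ⊕ (Fin n0) → MvPolynomial (Fin r) ℂ := Sum.elim
      (fun k' => (∏ i ∈ B k', el v i) *
          ((k * q k') * ∏ j, (if c k' j < 0 then X j * dm M j else 1)))
      (fun k' => (k * q0 k') * ∏ j, (if c0 k' j < 0 then X j * dm M j else 1)) with hF
    have h3 : (k * Polynomial.aeval (∑ j, X j : MvPolynomial (Fin r) ℂ) p) * ∏ j, dm M j =
        ∑ x : (Fin n) ⊕ (Fin n0), F x := by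
      rw [mul_assoc, hrel, Fintype.sum_sum_type, mul_add, Finset.mul_sum, Finset.mul_sum]
      congr 1
      · exact Finset.sum_congr rfl fun c _ => by rw [hF, Sum.elim_inl]; ring
      · exact Finset.sum_congr rfl fun c _ => by rw [hF, Sum.elim_inr]; ring
    rw [h3, FF_sum v ε hε κ s hs', Fintype.sum_sum_type]
    · rw [Finset.sum_eq_zero, Finset.sum_eq_zero, add_zero]
      · intro k' _
        rw [hF, Sum.elim_inr]
        rw [mul_assoc]
        rw [mul_comm (q0 k'), ← mul_assoc, mul_comm _ (q0 k')]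
        have h4 := FF_kill v ε κ s (yTH v θ T δ ϑ)
          (∏ j, (if c0 k' j < 0 then X j * dm M j else 1)) ∅
          (fun S q' _ => by
            have h7 := Finset.single_le_sum (f := fun k => K0 k) (fun k _ => hK0 k)
              (Finset.mem_univ k')
            refine hkill0 k' ε hε κ M hκM s T δ ϑ hϑ ?_ ?_ S q'
            · exact lt_of_le_of_lt (mul_le_mul_of_nonneg_left h7 hε.le) hεϑ1
            · intro hl
              exact lt_of_le_of_lt (mul_le_mul_of_nonneg_left h7 (by positivity)) (hδ1 hl))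
          L ∅ (q0 k' * k) subset_rfl
        rwa [mul_assoc] at h4
      · intro k' _
        rw [hF, Sum.elim_inl]
        have hH : Hyp v ε κ L ∅ ((k * q k') * ∏ j, (if c k' j < 0 then X j * dm M j else 1)) :=
          fun i _ h1 h2 => ((hkgood i h1 h2).mul_right _).mul_right _
        obtain ⟨L', hL'⟩ := FF_steps v ε hε κ s hs' (yTH v θ T δ ϑ) (B k') L ∅ _
          (Finset.disjoint_empty_right _) hLnd hLell hH
        rw [hL', Finset.union_empty]
        refine FF_kill v ε κ s _ _ (B k') (fun S q' hS => ?_) L' _ _ subset_rfl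
        refine vanish1 v θ ε hε κ M hκM s T δ ϑ hϑ (c k') (l k') (hl k') (B k') (hl1 k') (hl2 k')
          (lt_of_le_of_lt ?_ hT1) S q' hS
        refine mul_le_mul_of_nonneg_left ?_ (by positivity)
        exact Finset.single_le_sum (f := fun k =>
          (∑ j, |(c k j : ℝ)| + ∑ i, |∑ j, ((c k j : ℝ) + l k j) * (v j i : ℝ)| +
            |∑ j, ((c k j : ℝ) + l k j) * θ j|))
          (fun c _ => by positivity) (Finset.mem_univ k')
    · rintro (k' | k') _ i _ h1 h2
      · exact (((hkgood i h1 h2).mul_right _).mul_right _).mul_left _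
      · exact ((hkgood i h1 h2).mul_right _).mul_right _
  have hfin : Φ (ph ε) ∅ (lm (N := N) s) (av v) (yTH v θ T δ ϑ)
        (k * Polynomial.aeval (∑ j, X j : MvPolynomial (Fin r) ℂ) p) =
      ∑ κ ∈ KK, (∏ j, cf (κ j)) * HH v ε κ s (yTH v θ T δ ϑ) ∅
        ((k * Polynomial.aeval (∑ j, X j : MvPolynomial (Fin r) ℂ) p) * ∏ j, dm M j) := by
    unfold Φ HH
    simp only [← integral_const_mul]
    rw [Finset.map_empty, ← integral_finsetSum]
    · refine integral_congr_ae (Eventually.of_forall fun x => ?_)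
      simp only
      rw [← hcf ε hε, Finset.mul_sum]
      exact Finset.sum_congr rfl fun κ _ => by ring
    · intro κ hκ
      have := HH_integrable v ε hε κ s (hzero κ hκ).2.2 (yTH v θ T δ ϑ) ∅ _ (hzero κ hκ).2.1
      rw [Finset.map_empty] at this
      exact this.const_mul _
  rw [hfin]
  exact Finset.sum_eq_zero fun κ hκ => by rw [(hzero κ hκ).1, mul_zero]

/-- **Task A2.** -/
theorem a2 : TaskA2 := by
  intro r N v θ loc p hR k hk
  exact killsW v θ loc p hR k hk

end Pool.Agent.W318.MM
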